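import Pool.Agent.H21.CPDef

set_option autoImplicit false

namespace Pool.Agent.Results.MP_486437_lc.NoExtension

open FirstOrder Language Pool.Agent.H21.CP Structure

instance : Countable LA.Symbols := by
  have h1 : ∀ n, Countable (Fn n) := fun n =>
    Function.Injective.countable (f := fun f : Fn n => match f with
      | .zero => 0 | .one => 1 | .add => 2 | .mul => (3 : ℕ)) fun a b h => by
        cases a <;> cases b <;> simp_all
  have h2 : ∀ n, Countable (RA n) := fun n =>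
    Function.Injective.countable (f := fun _ : RA n => (0 : ℕ)) fun a b _ => by
      cases a; cases b; rfl
  exact inferInstanceAs (Countable ((Σ n, Fn n) ⊕ (Σ n, RA n)))

lemma big {n : ℕ} (hn : 1 ≤ n) {B : Set (Fin n → ℕ)} (h : Spread B) (m : ℕ) :
    ∃ b ∈ B, ∀ i, m < b i := by
  by_contra! hc
  have : Nonempty (Fin n) := ⟨⟨0, hn⟩⟩
  choose! g hg using hc
  refine h.1 (Set.Finite.of_injOn (f := fun b : Fin n → ℕ => b (g b)) (t := Set.Iic m) (fun b hb => hg b hb)
    (fun b hb b' hb' e => ?_) (Set.finite_Iic m))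
  by_contra hne
  exact Set.disjoint_left.1 (h.2.2 b hb b' hb' hne) ⟨_, rfl⟩ ⟨_, e.symm⟩

lemma red (X : Set ℕ) : @LHom.reduct _ _ inc ℕ (stdU X) = @LHom.reduct _ _ inc ℕ (stdU ∅) := by
  unfold LHom.reduct; congr 1; funext n r v; cases r; rfl

lemma exGen : ∃ X : Set ℕ, StrongGen ℕ (stdU X) := by
  letI : LA.Structure ℕ := @LHom.reduct _ _ inc ℕ (stdU ∅)
  let Rq := Σ n : ℕ, {p : LA[[(Set.univ : Set ℕ)]].Formula (Fin n) × Set (Fin n) //
    1 ≤ n ∧ ∃ B : Set (Fin n → ℕ), B ⊆ Set.ofPred p.1.Realize ∧ Spread B}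
  rcases isEmpty_or_nonempty Rq with hR | hR
  · exact ⟨∅, fun n hn D ⟨φ, hφ⟩ hB I => hR.elim ⟨n, (φ, I), hn, hφ ▸ hB⟩⟩
  obtain ⟨s, hs⟩ := exists_surjective_nat Rq
  have h : ∀ k m, ∃ b : Fin (s k).1 → ℕ, b ∈ Set.ofPred (s k).2.1.1.Realize ∧
      Function.Injective b ∧ ∀ i, m < b i := fun k m => by
    obtain ⟨hn, B, hB, hS⟩ := (s k).2.2
    obtain ⟨b, hb, h⟩ := big hn hS m
    exact ⟨b, hB hb, hS.2.1 b hb, h⟩
  choose b h1 h2 h3 using h
  let Q : ℕ → ℕ := fun k => Nat.rec 0 (fun k q => q + Finset.univ.sup (b k q)) k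
  have hQ : Monotone Q := monotone_nat_of_le_succ fun k => Nat.le_add_right _ _
  have h4 : ∀ k i, b k (Q k) i ≤ Q (k + 1) := fun k i =>
    (Finset.le_sup (f := b k (Q k)) (Finset.mem_univ i)).trans (Nat.le_add_left _ _)
  refine ⟨{x | ∃ k, ∃ i ∈ (s k).2.1.2, b k (Q k) i = x}, fun n hn D hD hB I => ?_⟩
  rw [red] at hD
  obtain ⟨φ, rfl⟩ := hD
  obtain ⟨k, hk⟩ := hs ⟨n, (φ, I), hn, hB⟩
  set X := {x | ∃ k, ∃ i ∈ (s k).2.1.2, b k (Q k) i = x}
  have key : ∃ c : Fin (s k).1 → ℕ, c ∈ Set.ofPred (s k).2.1.1.Realize ∧ ∀ i,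
      c i ∈ X ↔ i ∈ (s k).2.1.2 := by
    refine ⟨_, h1 k (Q k), fun i => ⟨?_, fun hi => ⟨k, i, hi, rfl⟩⟩⟩
    rintro ⟨j, i', hi', e⟩
    rcases lt_trichotomy j k with hj | rfl | hj
    · have := (h4 j i').trans (hQ hj); have := h3 k (Q k) i; omega
    · rwa [← h2 _ _ e]
    · have := (h4 k i).trans (hQ hj); have := h3 j (Q j) i'; omega
  clear_value X
  rw [hk] at key
  exact key

def ad {L : Language} {α : Type} (f : L.Functions 2) (g : L.Functions 2) (o : L.Functions 0)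
    (x d e : L.Term α) : L.Term α :=
  g.apply₂ e (f.apply₂ (g.apply₂ (f.apply₂ x (Constants.term o)) d) (Constants.term o))

def ψ : LU.Sentence :=
  ∀' ∃' ∃' ∀' (Relations.boundedFormula₂ RU.lt &3 &0 ⟹
    (Relations.boundedFormula₁ RU.U &3 ⇔ ∃' (&1 =' ad (L := LU) Fn.add Fn.mul Fn.one &3 &2 &4)))

lemma coding (X : Set ℕ) (a : ℕ) : ∃ c d, ∀ x < a, x ∈ X ↔ ∃ e, c = e * ((x + 1) * d + 1) := by
  classical
  refine ⟨∏ x ∈ (Finset.range a).filter (· ∈ X), ((x + 1) * a.factorial + 1), a.factorial,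
    fun x hx => ⟨fun h => ?_, fun ⟨e, he⟩ => ?_⟩⟩
  · exact exists_eq_mul_left_of_dvd (Finset.dvd_prod_of_mem _ (by simp [hx, h]))
  · by_contra hX
    have : Nat.Coprime ((x + 1) * a.factorial + 1)
        (∏ x ∈ (Finset.range a).filter (· ∈ X), ((x + 1) * a.factorial + 1)) := by
      refine Nat.Coprime.prod_right fun y hy => ?_
      simp only [Finset.mem_filter, Finset.mem_range] at hy
      have hne : x ≠ y := by rintro rfl; exact hX hy.2
      rcases hne.lt_or_gt with h | h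
      · exact Nat.coprime_mul_succ (Nat.dvd_factorial (by omega) (by omega))
      · exact (Nat.coprime_mul_succ (Nat.dvd_factorial (by omega) (by omega))).symm
    rw [he] at this
    have h1 := Nat.Coprime.eq_one_of_dvd this (Dvd.intro_left _ rfl)
    have := a.factorial_pos
    nlinarith

def θ : LU.Formula (Fin 2) :=
  ∀' (Relations.boundedFormula₂ RU.lt (.var (.inl 0)) &0 ⟹
    ((&0 =' .var (.inl 1)) ⊔ Relations.boundedFormula₂ RU.lt (.var (.inl 1)) &0))

def θ0 : LU.Formula (Fin 1) :=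
  ∀' ((&0 =' .var (.inl 0)) ⊔ Relations.boundedFormula₂ RU.lt (.var (.inl 0)) &0)

theorem result : (∃ X : Set ℕ, StrongGen ℕ (stdU X)) ∧
    ∀ (X : Set ℕ) (N : Type) (S : LU.Structure N) (f : @ElementaryEmbedding LU ℕ N (stdU X) S),
      ¬ Function.Surjective f → ¬ StrongGen N S := by
  refine ⟨exGen, fun X N S f hf hG => ?_⟩
  letI := stdU X
  obtain ⟨a, ha⟩ := not_forall.1 hf
  have ha' : ∀ n, a ≠ f n := fun n h => ha ⟨n, h.symm⟩
  have lt : ∀ n, S.RelMap RU.lt ![f n, a] := by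
    intro n
    induction n with
    | zero =>
      have := (f.map_formula θ0 ![0]).2 (by
        simp [θ0, Formula.Realize, Fin.snoc, RelMap]; omega)
      simp [θ0, Formula.Realize, Fin.snoc] at this
      exact (this a).resolve_left (ha' 0)
    | succ n ih =>
      have := (f.map_formula θ ![n, n + 1]).2 (by
        simp [θ, Formula.Realize, Fin.snoc, RelMap]; omega)
      simp [θ, Formula.Realize, Fin.snoc] at this
      exact (this a ih).resolve_left (ha' _)
  have h1 := (f.map_sentence ψ).1 (by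
    simpa [ψ, Sentence.Realize, Formula.Realize, Fin.snoc, RelMap, ad, funMap, Constants.term,
      constantMap] using coding X)
  simp [ψ, Sentence.Realize, Formula.Realize, Fin.snoc, ad] at h1
  obtain ⟨c, d, hcd⟩ := h1 a
  have hU : ∀ n, S.RelMap RU.U ![f n] ↔ n ∈ X := fun n => by
    have := f.map_rel RU.U ![n]
    rwa [show f ∘ ![n] = ![f n] from by ext i; fin_cases i; rfl] at this
  letI : LA.Structure N := @LHom.reduct _ _ inc N S
  have hD : Set.Definable (Set.univ : Set N) LA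
      {v : Fin 1 → N | S.RelMap RU.lt ![v 0, a] ∧ S.RelMap RU.U ![v 0]} := by
    refine Set.definable_iff_exists_formula_sum.2
      ⟨Relations.boundedFormula₂ RA.lt (.var (.inl (.inr 0))) (.var (.inl (.inl ⟨a, trivial⟩))) ⊓
        ∃' (.var (.inl (.inl ⟨c, trivial⟩)) =' ad (L := LA) Fn.add Fn.mul Fn.one
          (.var (.inl (.inr 0))) (.var (.inl (.inl ⟨d, trivial⟩))) &0), ?_⟩
    ext v
    simp [Formula.Realize, Fin.snoc, ad]
    exact and_congr_right fun h => hcd _ h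
  have hL : Set.Definable (Set.univ : Set N) LA {v : Fin 1 → N | S.RelMap RU.lt ![v 0, a]} := by
    refine Set.definable_iff_exists_formula_sum.2
      ⟨Relations.boundedFormula₂ RA.lt (.var (.inl (.inr 0))) (.var (.inl (.inl ⟨a, trivial⟩))), ?_⟩
    ext v
    simp [Formula.Realize]
    rfl
  have sp : ∀ Y : Set ℕ, Y.Infinite → Spread ((fun n (_ : Fin 1) => f n) '' Y) := by
    intro Y hY
    refine ⟨hY.image fun m _ n _ h => f.injective (congrFun h 0),
      fun b _ => Function.injective_of_subsingleton b, ?_⟩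
    rintro _ ⟨m, -, rfl⟩ _ ⟨n, -, rfl⟩ h
    simp only [Set.range_const, Set.disjoint_singleton]
    exact fun e => h (funext fun _ => e)
  by_cases hX : X.Infinite
  · obtain ⟨b, hb, h⟩ := hG 1 le_rfl _ hD ⟨_, by
      rintro _ ⟨n, hn, rfl⟩; exact ⟨lt n, (hU n).2 hn⟩, sp X hX⟩ ∅
    exact (h 0).1 hb.2
  · obtain ⟨b, hb, h⟩ := hG 1 le_rfl _ (hL.sdiff hD) ⟨_, by
      rintro _ ⟨n, hn, rfl⟩; exact ⟨lt n, fun h => hn ((hU n).1 h.2)⟩,
      sp Xᶜ (Set.not_infinite.1 hX).infinite_compl⟩ Set.univ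
    exact hb.2 ⟨hb.1, (h 0).2 trivial⟩

end Pool.Agent.Results.MP_486437_lc.NoExtension
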